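import Mathlib

/-!
# The square of a strong d-space need not be a strong d-space

There is a (sober) strong `d`-space `X` whose square is not a strong `d`-space, so products of strong
`d`-spaces, even of two copies of one space, need not be strong `d`-spaces.

Construction. Let `E false`, `E true` be disjoint sets of nonprincipal ultrafilters on `ℕ` such that
every infinite set of natural numbers belongs to a member of `E false` and to a member of `E true`.
The points of `X` are a chain `c 0 < c 1 < ⋯ < c ⊤`, a point `x`, and the maximal points `f b n`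
(`b : Bool`, `n : ℕ`) and `p b u` (`u ∈ E b`); `f b n` is above `x` and above the `c i` with `i ≤ n`,
`p b u` is above `x` and above the whole chain; a neighbourhood of `p b u` contains `f b n` for
`u`-almost all `n`. An open set which contains all points `p b u` contains all but finitely many
`f b n`; hence `X` is a strong `d`-space. In the square the points `(f false n, f true n)` form a
closed subset of the (open) set of the pairs of maximal points.
-/

open Set Filter Topology

namespace Pool.Agent.Results.MP_e2e219_gt.SquareNotStrongD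

/-- `up x` is the set of all points above `x` in the specialization order
(`x ≤ y` iff `x ∈ closure {y}`). -/
def up {X : Type*} [TopologicalSpace X] (x : X) : Set X := {y | x ∈ closure ({y} : Set X)}

/-- Directed subsets for the specialization order: nonempty, and any two elements have an upper bound
in the set. -/
def DirectedSubset {X : Type*} [TopologicalSpace X] (D : Set X) : Prop :=
  D.Nonempty ∧ ∀ a ∈ D, ∀ b ∈ D, ∃ c ∈ D, a ∈ closure ({c} : Set X) ∧ b ∈ closure ({c} : Set X)

/-- Strong `d`-spaces: `T₀` spaces such that, for every directed set `D`, every point `x` and every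
open set `U`, if `(⋂_{d ∈ D} up d) ∩ up x ⊆ U` then `up d ∩ up x ⊆ U` for some `d ∈ D`. -/
def StrongDSpace (X : Type*) [TopologicalSpace X] : Prop :=
  T0Space X ∧ ∀ D : Set X, DirectedSubset D → ∀ (x : X) (U : Set X), IsOpen U →
    (⋂ d ∈ D, up d) ∩ up x ⊆ U → ∃ d ∈ D, up d ∩ up x ⊆ U

/-! ### Two dense disjoint sets of ultrafilters -/

section Ultra

/-- A strictly increasing self map: parity along orbits. -/
theorem parity_colouring (g : ℕ → ℕ) (hg : ∀ n, n < g n) :
    ∃ c : ℕ → Prop, ∀ n, c (g n) ↔ ¬ c n := by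
  have hmono : ∀ m, StrictMono (fun k => g^[k] m) := by
    intro m
    apply strictMono_nat_of_lt_succ
    intro k
    rw [Function.iterate_succ_apply']
    exact hg _
  let R : ℕ → ℕ → Prop := fun n m => ∃ i j, g^[i] n = g^[j] m
  have hRrefl : ∀ n, R n n := fun n => ⟨0, 0, rfl⟩
  have hRsymm : ∀ n m, R n m → R m n := fun n m ⟨i, j, h⟩ => ⟨j, i, h.symm⟩
  have hRtrans : ∀ n m k, R n m → R m k → R n k := by
    rintro n m k ⟨i, j, h⟩ ⟨i', j', h'⟩
    refine ⟨i' + i, j + j', ?_⟩
    rw [Function.iterate_add_apply, h, ← Function.iterate_add_apply, Nat.add_comm i' j,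
      Function.iterate_add_apply, h', ← Function.iterate_add_apply]
  have hRg : ∀ n, R (g n) n := fun n => ⟨0, 1, rfl⟩
  have hex : ∀ n, ∃ m, R n m := fun n => ⟨n, hRrefl n⟩
  classical
  let r : ℕ → ℕ := fun n => Nat.find (hex n)
  have hr : ∀ n, R n (r n) := fun n => Nat.find_spec (hex n)
  have hrg : ∀ n, r (g n) = r n := by
    intro n
    apply le_antisymm
    · exact Nat.find_min' (hex (g n)) (hRtrans _ _ _ (hRg n) (hr n))
    · exact Nat.find_min' (hex n) (hRtrans _ _ _ (hRsymm _ _ (hRg n)) (hr (g n)))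
  -- parity is well defined
  have key : ∀ n m i j i' j', g^[i] n = g^[j] m → g^[i'] n = g^[j'] m →
      (Even (i + j) ↔ Even (i' + j')) := by
    have aux : ∀ n m i j k j', g^[i] n = g^[j] m → g^[k + i] n = g^[j'] m →
        (Even (i + j) ↔ Even (k + i + j')) := by
      intro n m i j k j' h h'
      rw [Function.iterate_add_apply, h, ← Function.iterate_add_apply] at h'
      have : k + j = j' := (hmono m).injective h'
      subst this
      constructor <;> intro he
      · have : k + i + (k + j) = (i + j) + 2 * k := by ring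
        rw [this]
        exact he.add (even_two_mul k)
      · have h2 : k + i + (k + j) = (i + j) + 2 * k := by ring
        rw [h2] at he
        exact (Nat.even_add.1 he).2 (even_two_mul k)
    intro n m i j i' j' h h'
    rcases le_total i i' with hi | hi
    · obtain ⟨k, rfl⟩ := Nat.exists_eq_add_of_le' hi
      exact aux n m i j k j' h h'
    · obtain ⟨k, rfl⟩ := Nat.exists_eq_add_of_le' hi
      exact (aux n m i' j' k j h' h).symm
  refine ⟨fun n => ∃ i j, g^[i] n = g^[j] (r n) ∧ Even (i + j), fun n => ?_⟩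
  obtain ⟨i, j, hij⟩ := hr (g n)
  have hij' : g^[i + 1] n = g^[j] (r n) := by
    rw [Function.iterate_succ_apply, hij, hrg]
  have e1 : (∃ i j, g^[i] (g n) = g^[j] (r (g n)) ∧ Even (i + j)) ↔ Even (i + j) := by
    constructor
    · rintro ⟨i', j', h, he⟩
      exact (key _ _ _ _ _ _ h hij).1 he
    · intro he
      exact ⟨i, j, hij, he⟩
  have e2 : (∃ i j, g^[i] n = g^[j] (r n) ∧ Even (i + j)) ↔ Even (i + 1 + j) := by
    constructor
    · rintro ⟨i', j', h, he⟩
      exact (key _ _ _ _ _ _ h hij').1 he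
    · intro he
      exact ⟨i + 1, j, hij', he⟩
  show (∃ i j, g^[i] (g n) = g^[j] (r (g n)) ∧ Even (i + j)) ↔
    ¬ (∃ i j, g^[i] n = g^[j] (r n) ∧ Even (i + j))
  rw [e1, e2]
  have : i + 1 + j = (i + j) + 1 := by ring
  rw [this, Nat.even_add_one, not_not]

open Classical in
/-- a colouring which changes along a decreasing step -/
noncomputable def colour (f : ℕ → ℕ) (n : ℕ) : Prop :=
  if _h : f n < n then ¬ colour f (f n) else True
termination_by n

/-- The analogous statement for maps which decrease. -/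
theorem parity_colouring_lt (f : ℕ → ℕ) :
    ∃ c : ℕ → Prop, ∀ n, f n < n → (c (f n) ↔ ¬ c n) := by
  refine ⟨colour f, fun n hn => ?_⟩
  conv_rhs => rw [colour]
  simp only [hn, dif_pos, not_not]

/-- A self map which fixes an ultrafilter is the identity on a set of the ultrafilter. -/
theorem eventually_id_of_map_eq (u : Ultrafilter ℕ) (f : ℕ → ℕ) (h : u.map f = u) :
    ∀ᶠ n in (u : Filter ℕ), f n = n := by
  classical
  have hmem : ∀ s : Set ℕ, s ∈ u ↔ f ⁻¹' s ∈ u := by
    intro s
    conv_lhs => rw [← h]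
    exact Ultrafilter.mem_map
  have nocol : ∀ (S : Set ℕ) (c : ℕ → Prop), S ∈ u → (∀ n ∈ S, (c (f n) ↔ ¬ c n)) → False := by
    intro S c hS hc
    rcases Ultrafilter.mem_or_compl_mem u {n | c n} with h1 | h1
    · have h2 := (hmem _).1 h1
      obtain ⟨n, hn⟩ := u.neBot.nonempty_of_mem (inter_mem (inter_mem hS h1) h2)
      exact (hc n hn.1.1).1 hn.2 hn.1.2
    · have h2 := (hmem _).1 h1
      obtain ⟨n, hn⟩ := u.neBot.nonempty_of_mem (inter_mem (inter_mem hS h1) h2)
      exact hn.2 ((hc n hn.1.1).2 hn.1.2)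
  by_contra hcon
  have hne : {n | f n = n}ᶜ ∈ u := (Ultrafilter.compl_mem_iff_notMem).2 hcon
  have hsplit : {n | f n < n} ∪ {n | n < f n} ∈ u := by
    filter_upwards [hne] with n hn
    exact lt_or_gt_of_ne hn
  rcases (Ultrafilter.union_mem_iff).1 hsplit with h1 | h1
  · obtain ⟨c, hc⟩ := parity_colouring_lt f
    exact nocol _ c h1 (fun n hn => hc n hn)
  · obtain ⟨c, hc⟩ := parity_colouring (fun n => if n < f n then f n else n + 1) (by
      intro n
      split_ifs with hn
      · exact hn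
      · omega)
    refine nocol _ c h1 (fun n hn => ?_)
    have hn' : n < f n := hn
    have := hc n
    simp only [hn', if_true] at this
    exact this

/-- a fixed nonprincipal ultrafilter -/
noncomputable def v : Ultrafilter ℕ := hyperfilter ℕ

theorem infinite_of_mem_v {s : Set ℕ} (h : s ∈ v) : s.Infinite := by
  intro hf
  exact (Set.Finite.compl_mem_hyperfilter hf |> fun h' =>
    (Ultrafilter.compl_mem_iff_notMem.1 h')) h

/-- its square, an ultrafilter on `ℕ × ℕ` -/
noncomputable def w : Ultrafilter (ℕ × ℕ) := v.bind (fun m => v.map (fun n => (m, n)))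

theorem mem_w {s : Set (ℕ × ℕ)} :
    s ∈ w ↔ ∀ᶠ m in (v : Filter ℕ), ∀ᶠ n in (v : Filter ℕ), (m, n) ∈ s := by
  unfold w
  rfl

theorem map_fst_w : w.map Prod.fst = v := by
  apply Ultrafilter.coe_injective
  ext s
  constructor
  · intro h
    have h1 : Prod.fst ⁻¹' s ∈ w := h
    rw [mem_w] at h1
    filter_upwards [h1] with m hm
    obtain ⟨n, hn⟩ := (hm).exists
    exact hn
  · intro h
    show Prod.fst ⁻¹' s ∈ w
    rw [mem_w]
    filter_upwards [h] with m hm
    exact Eventually.of_forall (fun n => hm)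

/-- The two families of nonprincipal ultrafilters. -/
def E : Bool → Set (Ultrafilter ℕ)
  | false => {u | ∃ e : ℕ → ℕ, Function.Injective e ∧ u = v.map e}
  | true => {u | ∃ e : ℕ × ℕ → ℕ, Function.Injective e ∧ u = w.map e}

theorem E_nonprincipal {b : Bool} {u : Ultrafilter ℕ} (hu : u ∈ E b) (k : ℕ) : {k}ᶜ ∈ u := by
  cases b with
  | false =>
    obtain ⟨e, he, rfl⟩ := hu
    rw [Ultrafilter.mem_map, preimage_compl, Ultrafilter.compl_mem_iff_notMem]
    intro h
    refine infinite_of_mem_v h ?_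
    apply Set.Subsingleton.finite
    intro a ha b hb
    exact he (by rw [mem_singleton_iff.1 (mem_preimage.1 ha), mem_singleton_iff.1 (mem_preimage.1 hb)])
  | true =>
    obtain ⟨e, he, rfl⟩ := hu
    rw [Ultrafilter.mem_map, preimage_compl, Ultrafilter.compl_mem_iff_notMem]
    intro h
    rw [mem_w] at h
    obtain ⟨m, hm⟩ := h.exists
    refine infinite_of_mem_v (s := {n | e (m, n) = k}) hm ?_
    apply Set.Subsingleton.finite
    intro a ha b hb
    have ha' : e (m, a) = k := ha
    have hb' : e (m, b) = k := hb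
    have := he (ha'.trans hb'.symm)
    exact (Prod.mk.inj this).2

theorem E_dense (b : Bool) {Z : Set ℕ} (hZ : Z.Infinite) : ∃ u ∈ E b, Z ∈ u := by
  classical
  have hinj : Function.Injective (Nat.nth (· ∈ Z)) := Nat.nth_injective hZ
  have hrange : ∀ n, Nat.nth (· ∈ Z) n ∈ Z := fun n => Nat.nth_mem_of_infinite hZ n
  cases b with
  | false =>
    refine ⟨v.map (Nat.nth (· ∈ Z)), ⟨_, hinj, rfl⟩, ?_⟩
    rw [Ultrafilter.mem_map]
    exact Filter.mem_of_superset univ_mem (fun n _ => hrange n)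
  | true =>
    refine ⟨w.map (fun q => Nat.nth (· ∈ Z) (Nat.pair q.1 q.2)), ⟨_, ?_, rfl⟩, ?_⟩
    · intro q q' h
      have h1 := hinj h
      have h2 := Nat.pair_eq_pair.1 h1
      exact Prod.ext h2.1 h2.2
    · rw [Ultrafilter.mem_map]
      exact Filter.mem_of_superset univ_mem (fun n _ => hrange _)

theorem E_disjoint {u : Ultrafilter ℕ} (h0 : u ∈ E false) (h1 : u ∈ E true) : False := by
  classical
  obtain ⟨e, he, hu⟩ := h0
  obtain ⟨e', he', hu'⟩ := h1
  let g : ℕ → ℕ := fun k => e (Function.invFun e' k).1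
  have hg : ∀ q, g (e' q) = e q.1 := by
    intro q
    show e (Function.invFun e' (e' q)).1 = e q.1
    rw [Function.leftInverse_invFun he' q]
  have hmap : u.map g = u := by
    have h1 : u.map g = w.map (fun q => e q.1) := by
      rw [hu', Ultrafilter.map_map]
      congr 1
      funext q
      exact hg q
    have h2 : w.map (fun q => e q.1) = v.map e := by
      rw [← map_fst_w, Ultrafilter.map_map]
      rfl
    rw [h1, h2, ← hu]
  have h3 := eventually_id_of_map_eq u g hmap
  have h4 : {k | g k = k} ∈ w.map e' := by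
    rw [← hu']
    exact h3
  rw [Ultrafilter.mem_map, mem_w] at h4
  obtain ⟨m, hm⟩ := h4.exists
  refine infinite_of_mem_v (s := {n | g (e' (m, n)) = e' (m, n)}) hm ?_
  apply Set.Subsingleton.finite
  intro a ha b hb
  have ha' : g (e' (m, a)) = e' (m, a) := ha
  have hb' : g (e' (m, b)) = e' (m, b) := hb
  rw [hg] at ha' hb'
  have := he' (ha'.symm.trans hb')
  exact (Prod.mk.inj this).2

end Ultra

/-! ### The space -/

/-- The points of the space. -/
inductive Pt : Type
  | c (i : ℕ∞) : Pt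
  | x : Pt
  | f (b : Bool) (n : ℕ) : Pt
  | p (b : Bool) (u : E b) : Pt

open Pt

/-- The open sets. -/
structure Op (V : Set Pt) : Prop where
  cc : ∀ i j : ℕ∞, i ≤ j → c i ∈ V → c j ∈ V
  ct : c ⊤ ∈ V → ∃ n : ℕ, c n ∈ V
  cf : ∀ (i : ℕ∞) (b : Bool) (n : ℕ), i ≤ n → c i ∈ V → f b n ∈ V
  cp : ∀ (i : ℕ∞) (b : Bool) (u : E b), c i ∈ V → p b u ∈ V
  xf : ∀ (b : Bool) (n : ℕ), x ∈ V → f b n ∈ V
  xp : ∀ (b : Bool) (u : E b), x ∈ V → p b u ∈ V
  pf : ∀ (b : Bool) (u : E b), p b u ∈ V → {n | f b n ∈ V} ∈ u.1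

instance : TopologicalSpace Pt where
  IsOpen := Op
  isOpen_univ := by
    constructor <;> intros <;> simp
    exact Filter.univ_mem
  isOpen_inter := by
    intro s t hs ht
    constructor
    · exact fun i j h hc => ⟨hs.cc i j h hc.1, ht.cc i j h hc.2⟩
    · intro h
      obtain ⟨n, hn⟩ := hs.ct h.1
      obtain ⟨m, hm⟩ := ht.ct h.2
      refine ⟨max n m, hs.cc n _ ?_ hn, ht.cc m _ ?_ hm⟩
      · exact_mod_cast le_max_left n m
      · exact_mod_cast le_max_right n m
    · exact fun i b n h hc => ⟨hs.cf i b n h hc.1, ht.cf i b n h hc.2⟩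
    · exact fun i b u hc => ⟨hs.cp i b u hc.1, ht.cp i b u hc.2⟩
    · exact fun b n hc => ⟨hs.xf b n hc.1, ht.xf b n hc.2⟩
    · exact fun b u hc => ⟨hs.xp b u hc.1, ht.xp b u hc.2⟩
    · intro b u hc
      filter_upwards [hs.pf b u hc.1, ht.pf b u hc.2] with n h1 h2 using ⟨h1, h2⟩
  isOpen_sUnion := by
    intro S hS
    constructor
    · rintro i j h ⟨s, hs, hc⟩
      exact ⟨s, hs, (hS s hs).cc i j h hc⟩
    · rintro ⟨s, hs, hc⟩
      obtain ⟨n, hn⟩ := (hS s hs).ct hc
      exact ⟨n, s, hs, hn⟩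
    · rintro i b n h ⟨s, hs, hc⟩
      exact ⟨s, hs, (hS s hs).cf i b n h hc⟩
    · rintro i b u ⟨s, hs, hc⟩
      exact ⟨s, hs, (hS s hs).cp i b u hc⟩
    · rintro b n ⟨s, hs, hc⟩
      exact ⟨s, hs, (hS s hs).xf b n hc⟩
    · rintro b u ⟨s, hs, hc⟩
      exact ⟨s, hs, (hS s hs).xp b u hc⟩
    · rintro b u ⟨s, hs, hc⟩
      filter_upwards [(hS s hs).pf b u hc] with n hn using ⟨s, hs, hn⟩

theorem isOpen_iff_op {V : Set Pt} : IsOpen V ↔ Op V := Iff.rfl

/-- The specialization order. -/
inductive Le : Pt → Pt → Prop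
  | refl (y : Pt) : Le y y
  | cc (i j : ℕ∞) (h : i ≤ j) : Le (c i) (c j)
  | cf (i : ℕ∞) (b : Bool) (n : ℕ) (h : i ≤ n) : Le (c i) (f b n)
  | cp (i : ℕ∞) (b : Bool) (u : E b) : Le (c i) (p b u)
  | xf (b : Bool) (n : ℕ) : Le x (f b n)
  | xp (b : Bool) (u : E b) : Le x (p b u)

theorem Le.mem {y z : Pt} (h : Le y z) {V : Set Pt} (hV : Op V) (hy : y ∈ V) : z ∈ V := by
  cases h with
  | refl => exact hy
  | cc i j h => exact hV.cc i j h hy
  | cf i b n h => exact hV.cf i b n h hy
  | cp i b u => exact hV.cp i b u hy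
  | xf b n => exact hV.xf b n hy
  | xp b u => exact hV.xp b u hy

theorem Le.trans {y z t : Pt} (h : Le y z) (h' : Le z t) : Le y t := by
  cases h with
  | refl => exact h'
  | cc i j h =>
    cases h' with
    | refl => exact Le.cc i j h
    | cc _ k h2 => exact Le.cc i k (h.trans h2)
    | cf _ b n h2 => exact Le.cf i b n (h.trans h2)
    | cp _ b u => exact Le.cp i b u
  | cf i b n h =>
    cases h' with
    | refl => exact Le.cf i b n h
  | cp i b u =>
    cases h' with
    | refl => exact Le.cp i b u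
  | xf b n =>
    cases h' with
    | refl => exact Le.xf b n
  | xp b u =>
    cases h' with
    | refl => exact Le.xp b u

theorem le_c_iff {y : Pt} {j : ℕ∞} : Le y (c j) ↔ ∃ i ≤ j, y = c i := by
  constructor
  · intro h
    cases h with
    | refl => exact ⟨j, le_rfl, rfl⟩
    | cc i _ h => exact ⟨i, h, rfl⟩
  · rintro ⟨i, h, rfl⟩
    exact Le.cc i j h

theorem le_x_iff {y : Pt} : Le y x ↔ y = x := by
  constructor
  · intro h
    cases h with
    | refl => rfl
  · rintro rfl
    exact Le.refl _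

theorem le_f_iff {y : Pt} {b : Bool} {n : ℕ} :
    Le y (f b n) ↔ y = f b n ∨ y = x ∨ ∃ i : ℕ∞, i ≤ n ∧ y = c i := by
  constructor
  · intro h
    cases h with
    | refl => exact Or.inl rfl
    | cf i _ _ h => exact Or.inr (Or.inr ⟨i, h, rfl⟩)
    | xf => exact Or.inr (Or.inl rfl)
  · rintro (rfl | rfl | ⟨i, h, rfl⟩)
    · exact Le.refl _
    · exact Le.xf b n
    · exact Le.cf i b n h

theorem le_p_iff {y : Pt} {b : Bool} {u : E b} :
    Le y (p b u) ↔ y = p b u ∨ y = x ∨ ∃ i : ℕ∞, y = c i := by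
  constructor
  · intro h
    cases h with
    | refl => exact Or.inl rfl
    | cp i => exact Or.inr (Or.inr ⟨i, rfl⟩)
    | xp => exact Or.inr (Or.inl rfl)
  · rintro (rfl | rfl | ⟨i, rfl⟩)
    · exact Le.refl _
    · exact Le.xp b u
    · exact Le.cp i b u

theorem op_compl_down (z : Pt) : Op {y | ¬ Le y z} := by
  constructor
  · intro i j h hi hj
    exact hi ((Le.cc i j h).trans hj)
  · intro h
    cases z with
    | c j =>
      have hj : j ≠ ⊤ := by
        rintro rfl
        exact h (Le.refl _)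
      lift j to ℕ using hj
      refine ⟨j + 1, fun hle => ?_⟩
      obtain ⟨i, hi, he⟩ := le_c_iff.1 hle
      have he' := (Pt.c.inj he)
      rw [← he'] at hi
      have : j + 1 ≤ j := by exact_mod_cast hi
      omega
    | x =>
      exact ⟨0, fun hle => by
        have := le_x_iff.1 hle
        cases this⟩
    | f b n =>
      refine ⟨n + 1, fun hle => ?_⟩
      rcases le_f_iff.1 hle with he | he | ⟨i, hi, he⟩
      · cases he
      · cases he
      · have he' := (Pt.c.inj he)
        rw [← he'] at hi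
        have : n + 1 ≤ n := by exact_mod_cast hi
        omega
    | p b u => exact absurd (Le.cp ⊤ b u) h
  · intro i b n h hi hj
    exact hi ((Le.cf i b n h).trans hj)
  · intro i b u hi hj
    exact hi ((Le.cp i b u).trans hj)
  · intro b n hi hj
    exact hi ((Le.xf b n).trans hj)
  · intro b u hi hj
    exact hi ((Le.xp b u).trans hj)
  · intro b u _
    have hsub : ∀ k, {k}ᶜ ⊆ {n | ¬ Le (f b n) (f b k)} := by
      intro k n hn hle
      rcases le_f_iff.1 hle with he | he | ⟨i, hi, he⟩
      · have := (Pt.f.inj he).2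
        exact hn this
      · cases he
      · cases he
    cases z with
    | c j =>
      refine Filter.mem_of_superset Filter.univ_mem (fun n _ hle => ?_)
      obtain ⟨i, _, he⟩ := le_c_iff.1 hle
      cases he
    | x =>
      refine Filter.mem_of_superset Filter.univ_mem (fun n _ hle => ?_)
      have := le_x_iff.1 hle
      cases this
    | f b' k =>
      refine Filter.mem_of_superset (E_nonprincipal u.2 k) (fun n hn hle => ?_)
      rcases le_f_iff.1 hle with he | he | ⟨i, hi, he⟩
      · have := (Pt.f.inj he).2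
        exact hn this
      · cases he
      · cases he
    | p b' u' =>
      refine Filter.mem_of_superset Filter.univ_mem (fun n _ hle => ?_)
      rcases le_p_iff.1 hle with he | he | ⟨i, he⟩ <;> cases he

theorem mem_closure_iff_le {y z : Pt} : y ∈ closure ({z} : Set Pt) ↔ Le y z := by
  constructor
  · intro h
    by_contra hcon
    rw [mem_closure_iff] at h
    obtain ⟨t, ht, hz⟩ := h _ (op_compl_down z) hcon
    rw [mem_singleton_iff.1 hz] at ht
    exact ht (Le.refl _)
  · intro h
    rw [mem_closure_iff]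
    intro V hV hy
    exact ⟨z, h.mem hV hy, rfl⟩

theorem le_antisymm' {y z : Pt} (h : Le y z) (h' : Le z y) : y = z := by
  cases h with
  | refl => rfl
  | cc i j h =>
    obtain ⟨k, hk, he⟩ := le_c_iff.1 h'
    have := Pt.c.inj he
    subst this
    rw [le_antisymm h hk]
  | cf i b n h => obtain ⟨k, hk, he⟩ := le_c_iff.1 h'; cases he
  | cp i b u => obtain ⟨k, hk, he⟩ := le_c_iff.1 h'; cases he
  | xf b n => have := le_x_iff.1 h'; cases this
  | xp b u => have := le_x_iff.1 h'; cases this

instance : T0Space Pt := by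
  rw [t0Space_iff_inseparable]
  intro y z h
  apply le_antisymm'
  · exact mem_closure_iff_le.1 (specializes_iff_mem_closure.1 h.specializes')
  · exact mem_closure_iff_le.1 (specializes_iff_mem_closure.1 h.specializes)

theorem mem_up {y z : Pt} : z ∈ up y ↔ Le y z := mem_closure_iff_le

/-- The key property: an open set containing all the points `p b u` contains all but finitely many
points `f b n`. -/
theorem tail_of_open {U : Set Pt} (hU : Op U) (h : ∀ b u, p b u ∈ U) :
    ∃ N : ℕ, ∀ b, ∀ n ≥ N, f b n ∈ U := by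
  have h1 : ∀ b, {n | f b n ∉ U}.Finite := by
    intro b
    by_contra hinf
    obtain ⟨u, hu, hZ⟩ := E_dense b hinf
    have h2 := hU.pf b ⟨u, hu⟩ (h b ⟨u, hu⟩)
    obtain ⟨n, hn⟩ := u.neBot.nonempty_of_mem (inter_mem hZ h2)
    exact hn.1 hn.2
  obtain ⟨N0, hN0⟩ := (h1 false).bddAbove
  obtain ⟨N1, hN1⟩ := (h1 true).bddAbove
  refine ⟨max N0 N1 + 1, fun b n hn => ?_⟩
  by_contra hcon
  cases b with
  | false =>
    have := hN0 hcon
    have := le_max_left N0 N1
    omega
  | true =>
    have := hN1 hcon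
    have := le_max_right N0 N1
    omega

theorem strong : StrongDSpace Pt := by
  refine ⟨inferInstance, ?_⟩
  rintro D ⟨hne, hdir⟩ y U hU hsub
  -- the case of a greatest element
  by_cases hmax : ∃ d ∈ D, ∀ d' ∈ D, Le d' d
  · obtain ⟨d, hd, hmax⟩ := hmax
    refine ⟨d, hd, fun z hz => hsub ⟨?_, hz.2⟩⟩
    rw [mem_iInter₂]
    intro d' hd'
    exact mem_up.2 ((hmax d' hd').trans (mem_up.1 hz.1))
  have hdir' : ∀ a ∈ D, ∀ b ∈ D, ∃ e ∈ D, Le a e ∧ Le b e := by
    intro a ha b hb
    obtain ⟨e, he, h1, h2⟩ := hdir a ha b hb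
    exact ⟨e, he, mem_closure_iff_le.1 h1, mem_closure_iff_le.1 h2⟩
  push Not at hmax
  -- no maximal point of the space is in `D`
  have hmaxpt : ∀ d ∈ D, (∀ z, Le d z → z = d) → False := by
    intro d hd h
    obtain ⟨d', hd', hn⟩ := hmax d hd
    obtain ⟨e, he, h1, h2⟩ := hdir' d hd d' hd'
    rw [h e h1] at h2
    exact hn h2
  have hf : ∀ b n, f b n ∉ D := by
    intro b n h
    refine hmaxpt _ h (fun z hz => ?_)
    cases hz with
    | refl => rfl
  have hp : ∀ b u, p b u ∉ D := by
    intro b u h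
    refine hmaxpt _ h (fun z hz => ?_)
    cases hz with
    | refl => rfl
  have hx : x ∉ D := by
    intro h
    obtain ⟨d', hd', hn⟩ := hmax x h
    obtain ⟨e, he, h1, h2⟩ := hdir' x h d' hd'
    cases h1 with
    | refl => exact hn h2
    | xf b n => exact hf b n he
    | xp b u => exact hp b u he
  have hD : ∀ d ∈ D, ∃ i : ℕ∞, d = c i := by
    intro d hd
    cases d with
    | c i => exact ⟨i, rfl⟩
    | x => exact absurd hd hx
    | f b n => exact absurd hd (hf b n)
    | p b u => exact absurd hd (hp b u)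
  have hcof : ∀ n : ℕ, ∃ m : ℕ, n ≤ m ∧ c m ∈ D := by
    intro n
    by_contra hcon
    push Not at hcon
    -- all elements of `D` are `c i` with `i < n` or `i = ⊤`
    have htop : c ⊤ ∉ D := by
      intro h
      obtain ⟨d', hd', hn⟩ := hmax _ h
      obtain ⟨i, rfl⟩ := hD d' hd'
      exact hn (Le.cc _ _ le_top)
    have hlt : ∀ d ∈ D, ∃ m : ℕ, m < n ∧ d = c m := by
      intro d hd
      obtain ⟨i, rfl⟩ := hD d hd
      have hi : i ≠ ⊤ := by
        rintro rfl
        exact htop hd
      lift i to ℕ using hi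
      refine ⟨i, ?_, rfl⟩
      by_contra hle
      exact hcon i (not_lt.1 hle) hd
    -- take the largest index
    have hfin : {m : ℕ | c (m : ℕ∞) ∈ D}.Finite := by
      apply (Set.finite_lt_nat n).subset
      intro m hm
      obtain ⟨m', hm', he⟩ := hlt _ hm
      have := Pt.c.inj he
      have h3 : m = m' := by exact_mod_cast this
      show m < n
      rw [h3]
      exact hm'
    have hne' : {m : ℕ | c (m : ℕ∞) ∈ D}.Nonempty := by
      obtain ⟨d, hd⟩ := hne
      obtain ⟨m, _, rfl⟩ := hlt d hd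
      exact ⟨m, hd⟩
    obtain ⟨M, hM, hMmax⟩ := Set.exists_max_image _ id hfin hne'
    obtain ⟨d', hd', hn⟩ := hmax _ hM
    obtain ⟨m, _, rfl⟩ := hlt d' hd'
    refine hn (Le.cc _ _ ?_)
    exact_mod_cast hMmax m hd'
  have hinter : ∀ z, Le (c ⊤) z → z ∈ ⋂ d ∈ D, up d := by
    intro z hz
    rw [mem_iInter₂]
    intro d hd
    obtain ⟨i, rfl⟩ := hD d hd
    exact mem_up.2 ((Le.cc i ⊤ le_top).trans hz)
  cases y with
  | c j =>
    have htop : c ⊤ ∈ U := hsub ⟨hinter _ (Le.refl _), mem_up.2 (Le.cc _ _ le_top)⟩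
    obtain ⟨n, hn⟩ := Op.ct hU htop
    obtain ⟨m, hm, hmD⟩ := hcof n
    refine ⟨_, hmD, fun z hz => ?_⟩
    have h1 : Le (c n) z := (Le.cc _ _ (by exact_mod_cast hm)).trans (mem_up.1 hz.1)
    exact h1.mem hU hn
  | x =>
    have hpU : ∀ b u, p b u ∈ U := by
      intro b u
      exact hsub ⟨hinter _ (Le.cp _ _ _), mem_up.2 (Le.xp b u)⟩
    obtain ⟨N, hN⟩ := tail_of_open hU hpU
    obtain ⟨m, hm, hmD⟩ := hcof N
    refine ⟨_, hmD, fun z hz => ?_⟩
    have h1 : Le (c m) z := mem_up.1 hz.1
    have h2 : Le x z := mem_up.1 hz.2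
    cases h2 with
    | refl => cases h1
    | xf b n =>
      cases h1 with
      | cf _ _ _ h =>
        have : m ≤ n := by exact_mod_cast h
        exact hN b n (by omega)
    | xp b u => exact hpU b u
  | f b k =>
    obtain ⟨m, hm, hmD⟩ := hcof (k + 1)
    refine ⟨_, hmD, fun z hz => ?_⟩
    have h1 : Le (c m) z := mem_up.1 hz.1
    have h2 : Le (f b k) z := mem_up.1 hz.2
    cases h2 with
    | refl =>
      cases h1 with
      | cf _ _ _ h =>
        have : m ≤ k := by exact_mod_cast h
        omega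
  | p b u =>
    obtain ⟨m, hm, hmD⟩ := hcof 0
    refine ⟨_, hmD, fun z hz => ?_⟩
    have h2 : Le (p b u) z := mem_up.1 hz.2
    cases h2 with
    | refl => exact hsub ⟨hinter _ (Le.cp _ _ _), mem_up.2 (Le.refl _)⟩

/-! ### The square -/

/-- The open set of the counterexample. -/
def W : Set (Pt × Pt) :=
  {q | Le x q.1 ∧ Le x q.2 ∧ q.1 ≠ x ∧ q.2 ≠ x ∧ ∀ n, q ≠ (f false n, f true n)}

/-- A basic open set around `p b u`. -/
def nb (b : Bool) (u : E b) (s : Set ℕ) : Set Pt := {y | y = p b u ∨ ∃ n ∈ s, y = f b n}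

theorem op_nb (b : Bool) (u : E b) {s : Set ℕ} (hs : s ∈ u.1) : Op (nb b u s) := by
  constructor
  · rintro i j h (h' | ⟨n, _, h'⟩) <;> cases h'
  · rintro (h' | ⟨n, _, h'⟩) <;> cases h'
  · rintro i b n h (h' | ⟨n, _, h'⟩) <;> cases h'
  · rintro i b u (h' | ⟨n, _, h'⟩) <;> cases h'
  · rintro b n (h' | ⟨n, _, h'⟩) <;> cases h'
  · rintro b u (h' | ⟨n, _, h'⟩) <;> cases h'
  · rintro b' u' (h' | ⟨n, _, h'⟩)
    · cases h'
      filter_upwards [hs] with n hn
      exact Or.inr ⟨n, hn, rfl⟩
    · cases h'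

theorem op_singleton_f (b : Bool) (n : ℕ) : Op ({f b n} : Set Pt) := by
  constructor
  · intro i j h h'; cases h'
  · intro h'; cases h'
  · intro i b n h h'; cases h'
  · intro i b n h'; cases h'
  · intro b n h'; cases h'
  · intro b n h'; cases h'
  · intro b n h'; cases h'

theorem mem_nb_max {b : Bool} {u : E b} {s : Set ℕ} {y : Pt} (h : y ∈ nb b u s) :
    Le x y ∧ y ≠ x := by
  rcases h with rfl | ⟨n, _, rfl⟩
  · exact ⟨Le.xp _ _, by intro h; cases h⟩
  · exact ⟨Le.xf _ _, by intro h; cases h⟩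

theorem isOpen_W : IsOpen W := by
  rw [isOpen_iff_mem_nhds]
  rintro ⟨s, t⟩ ⟨h1, h2, h3, h4, h5⟩
  dsimp only at h1 h2 h3 h4
  have box : ∀ A B : Set Pt, Op A → Op B → s ∈ A → t ∈ B → A ×ˢ B ⊆ W → W ∈ 𝓝 (s, t) := by
    intro A B hA hB hs ht hsub
    exact Filter.mem_of_superset (prod_mem_nhds (IsOpen.mem_nhds hA hs) (IsOpen.mem_nhds hB ht)) hsub
  cases h1 with
  | refl => exact absurd rfl h3
  | xf b n =>
    cases h2 with
    | refl => exact absurd rfl h4
    | xf b' n' =>
      refine box {f b n} {f b' n'} (op_singleton_f _ _) (op_singleton_f _ _) rfl rfl ?_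
      rintro ⟨y, z⟩ ⟨hy, hz⟩
      have hy' : y = f b n := hy
      have hz' : z = f b' n' := hz
      subst hy'
      subst hz'
      exact ⟨Le.xf _ _, Le.xf _ _, h3, h4, h5⟩
    | xp b' u' =>
      refine box {f b n} (nb b' u' {n}ᶜ) (op_singleton_f _ _) (op_nb _ _ (E_nonprincipal u'.2 n))
        rfl (Or.inl rfl) ?_
      rintro ⟨y, z⟩ ⟨hy, hz⟩
      have hy' : y = f b n := hy
      subst hy'
      refine ⟨Le.xf _ _, (mem_nb_max hz).1, h3, (mem_nb_max hz).2, ?_⟩
      intro m hm
      have e1 := (Prod.mk.inj hm).1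
      have e2 : z = f true m := (Prod.mk.inj hm).2
      have e3 : n = m := (Pt.f.inj e1).2
      subst e3
      rcases hz with hz | ⟨k, hk, hz⟩
      · have hz' : z = p b' u' := hz
        rw [hz'] at e2
        cases e2
      · have hz' : z = f b' k := hz
        rw [hz'] at e2
        exact hk (Pt.f.inj e2).2
  | xp b u =>
    cases h2 with
    | refl => exact absurd rfl h4
    | xf b' n' =>
      refine box (nb b u {n'}ᶜ) {f b' n'} (op_nb _ _ (E_nonprincipal u.2 n')) (op_singleton_f _ _)
        (Or.inl rfl) rfl ?_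
      rintro ⟨y, z⟩ ⟨hy, hz⟩
      have hz' : z = f b' n' := hz
      subst hz'
      refine ⟨(mem_nb_max hy).1, Le.xf _ _, (mem_nb_max hy).2, h4, ?_⟩
      intro m hm
      have e1 : y = f false m := (Prod.mk.inj hm).1
      have e2 := (Prod.mk.inj hm).2
      have e3 : n' = m := (Pt.f.inj e2).2
      subst e3
      rcases hy with hy | ⟨k, hk, hy⟩
      · have hy' : y = p b u := hy
        rw [hy'] at e1
        cases e1
      · have hy' : y = f b k := hy
        rw [hy'] at e1
        exact hk (Pt.f.inj e1).2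
    | xp b' u' =>
      have hex : ∃ A ∈ u.1, ∃ B ∈ u'.1, b = false → b' = true → Disjoint A B := by
        by_cases hb : b = false ∧ b' = true
        · obtain ⟨rfl, rfl⟩ := hb
          have hne : u.1 ≠ u'.1 := by
            intro h
            exact E_disjoint u.2 (h ▸ u'.2)
          obtain ⟨A, hA, hA'⟩ : ∃ A ∈ u.1, A ∉ u'.1 := by
            by_contra hcon
            push Not at hcon
            exact hne (Ultrafilter.eq_of_le (fun s hs => hcon s hs)).symm
          exact ⟨A, hA, Aᶜ, Ultrafilter.compl_mem_iff_notMem.2 hA', fun _ _ =>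
            disjoint_compl_right⟩
        · refine ⟨univ, Filter.univ_mem, univ, Filter.univ_mem, fun h1 h2 => absurd ⟨h1, h2⟩ hb⟩
      obtain ⟨A, hA, B, hB, hAB⟩ := hex
      refine box (nb b u A) (nb b' u' B) (op_nb _ _ hA) (op_nb _ _ hB) (Or.inl rfl) (Or.inl rfl) ?_
      rintro ⟨y, z⟩ ⟨hy, hz⟩
      refine ⟨(mem_nb_max hy).1, (mem_nb_max hz).1, (mem_nb_max hy).2, (mem_nb_max hz).2, ?_⟩
      intro m hm
      have e1 : y = f false m := (Prod.mk.inj hm).1
      have e2 : z = f true m := (Prod.mk.inj hm).2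
      rcases hy with hy | ⟨k, hk, hy⟩
      · have hy' : y = p b u := hy
        rw [hy'] at e1
        cases e1
      rcases hz with hz | ⟨k', hk', hz⟩
      · have hz' : z = p b' u' := hz
        rw [hz'] at e2
        cases e2
      have hy' : y = f b k := hy
      have hz' : z = f b' k' := hz
      rw [hy'] at e1
      rw [hz'] at e2
      obtain ⟨hb, hk1⟩ := Pt.f.inj e1
      obtain ⟨hb', hk2⟩ := Pt.f.inj e2
      have hkk : k = k' := hk1.trans hk2.symm
      subst hkk
      exact Set.disjoint_left.1 (hAB hb hb') hk hk'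

theorem mem_closure_prod {X : Type*} [TopologicalSpace X] (a b : X × X) :
    a ∈ closure ({b} : Set (X × X)) ↔ a.1 ∈ closure ({b.1} : Set X) ∧ a.2 ∈ closure ({b.2} : Set X) := by
  have : ({b} : Set (X × X)) = ({b.1} : Set X) ×ˢ ({b.2} : Set X) := by
    rw [Set.singleton_prod_singleton]
  rw [this, closure_prod_eq, Set.mem_prod]

theorem not_strong_square : ¬ StrongDSpace (Pt × Pt) := by
  rintro ⟨_, h⟩
  let D : Set (Pt × Pt) := {q | ∃ n : ℕ, q = (c n, c n)}
  have hD : DirectedSubset D := by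
    refine ⟨⟨_, 0, rfl⟩, ?_⟩
    rintro _ ⟨n, rfl⟩ _ ⟨m, rfl⟩
    refine ⟨_, ⟨max n m, rfl⟩, ?_, ?_⟩
    · rw [mem_closure_prod]
      have : Le (c (n : ℕ∞)) (c ((max n m : ℕ) : ℕ∞)) := Le.cc _ _ (by exact_mod_cast le_max_left n m)
      exact ⟨mem_closure_iff_le.2 this, mem_closure_iff_le.2 this⟩
    · rw [mem_closure_prod]
      have : Le (c (m : ℕ∞)) (c ((max n m : ℕ) : ℕ∞)) := Le.cc _ _ (by exact_mod_cast le_max_right n m)
      exact ⟨mem_closure_iff_le.2 this, mem_closure_iff_le.2 this⟩
  have hmu : ∀ a b : Pt × Pt, b ∈ up a ↔ Le a.1 b.1 ∧ Le a.2 b.2 := by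
    intro a b
    show a ∈ closure ({b} : Set (Pt × Pt)) ↔ _
    rw [mem_closure_prod, mem_closure_iff_le, mem_closure_iff_le]
  obtain ⟨d, ⟨n, rfl⟩, hd⟩ := h D hD (x, x) W isOpen_W (by
    rintro ⟨s, t⟩ ⟨hst, hx⟩
    rw [mem_iInter₂] at hst
    have hst' : ∀ n : ℕ, Le (c n) s ∧ Le (c n) t := fun n => (hmu _ _).1 (hst _ ⟨n, rfl⟩)
    have hx' : Le x s ∧ Le x t := (hmu _ _).1 hx
    have key : ∀ s, (∀ n : ℕ, Le (c n) s) → Le x s → ∃ b u, s = p b u := by
      intro s hc hx
      cases hx with
      | refl =>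
        have := hc 0
        cases this
      | xf b k =>
        have := hc (k + 1)
        cases this with
        | cf _ _ _ h =>
          exfalso
          have : k + 1 ≤ k := by exact_mod_cast h
          omega
      | xp b u => exact ⟨b, u, rfl⟩
    obtain ⟨b, u, rfl⟩ := key s (fun n => (hst' n).1) hx'.1
    obtain ⟨b', u', rfl⟩ := key t (fun n => (hst' n).2) hx'.2
    refine ⟨Le.xp _ _, Le.xp _ _, ?_, ?_, ?_⟩
    · intro h; cases h
    · intro h; cases h
    · intro n h
      have := (Prod.mk.inj h).1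
      cases this)
  have h1 : (f false n, f true n) ∈ W := hd ⟨(hmu _ _).2 ⟨Le.cf _ _ _ le_rfl, Le.cf _ _ _ le_rfl⟩,
    (hmu _ _).2 ⟨Le.xf _ _, Le.xf _ _⟩⟩
  exact h1.2.2.2.2 n rfl

/-- Strong `d`-spaces are preserved by homeomorphisms. -/
theorem strong_of_homeo {X Y : Type*} [TopologicalSpace X] [TopologicalSpace Y] (e : X ≃ₜ Y)
    (h : StrongDSpace X) : StrongDSpace Y := by
  obtain ⟨h0, hs⟩ := h
  have hcl : ∀ a b : Y, a ∈ closure ({b} : Set Y) ↔ e.symm a ∈ closure ({e.symm b} : Set X) := by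
    intro a b
    have := e.symm.image_closure ({b} : Set Y)
    rw [image_singleton] at this
    rw [← this]
    constructor
    · exact fun h => mem_image_of_mem _ h
    · rintro ⟨c, hc, he⟩
      rwa [← e.symm.injective he]
  refine ⟨e.symm.isEmbedding.t0Space, ?_⟩
  rintro D ⟨hne, hdir⟩ y U hU hsub
  have hD' : DirectedSubset (e.symm '' D) := by
    refine ⟨hne.image _, ?_⟩
    rintro _ ⟨a, ha, rfl⟩ _ ⟨b, hb, rfl⟩
    obtain ⟨c, hc, h1, h2⟩ := hdir a ha b hb
    exact ⟨e.symm c, mem_image_of_mem _ hc, (hcl _ _).1 h1, (hcl _ _).1 h2⟩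
  have hup : ∀ (a : Y) (z : X), z ∈ up (e.symm a) ↔ e z ∈ up a := by
    intro a z
    show e.symm a ∈ closure ({z} : Set X) ↔ a ∈ closure ({e z} : Set Y)
    rw [hcl, e.symm_apply_apply]
  obtain ⟨_, ⟨d, hd, rfl⟩, hdU⟩ := hs _ hD' (e.symm y) (e ⁻¹' U) (hU.preimage e.continuous) (by
    rintro z ⟨hz1, hz2⟩
    apply hsub
    refine ⟨?_, (hup y z).1 hz2⟩
    rw [mem_iInter₂] at hz1 ⊢
    intro d hd
    exact (hup d z).1 (hz1 _ (mem_image_of_mem _ hd)))
  refine ⟨d, hd, fun t ht => ?_⟩
  have h1 : e.symm t ∈ e ⁻¹' U := hdU ⟨(hup d _).2 (by rw [e.apply_symm_apply]; exact ht.1),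
    (hup y _).2 (by rw [e.apply_symm_apply]; exact ht.2)⟩
  rw [mem_preimage, e.apply_symm_apply] at h1
  exact h1

/-- **Products of strong `d`-spaces need not be strong `d`-spaces**: there is a strong `d`-space `X`
such that neither `X × X` nor the product `∏_{i ∈ I} X` with a two-element index set `I` is a strong
`d`-space. -/
theorem result : ∃ (X : Type) (_ : TopologicalSpace X),
    StrongDSpace X ∧ ¬ StrongDSpace (X × X) ∧ ¬ StrongDSpace (Fin 2 → X) := by
  refine ⟨Pt, inferInstance, strong, not_strong_square, fun h => not_strong_square ?_⟩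
  exact strong_of_homeo Homeomorph.finTwoArrow h

end Pool.Agent.Results.MP_e2e219_gt.SquareNotStrongD
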